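import Mathlib

/-!
# MP_d89a53_pr : statements of the pieces

`b = A / √n` is an `n × n` random matrix with independent mean zero entries, `E b_ij² ≤ 1/n`,
`|b_ij| ≤ K` everywhere.  `L = log (1/ε)`.
-/

open MeasureTheory ProbabilityTheory

namespace Pool.Agent.W2helper1.NR

universe u

/-- The rows `S` of `b` form a matrix of squared operator norm at most `Λ`. -/
def RowBd {n : ℕ} (b : Fin n → Fin n → ℝ) (S : Finset (Fin n)) (Λ : ℝ) : Prop :=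
  ∀ x : Fin n → ℝ, ∑ j, (∑ i ∈ S, x i * b i j) ^ 2 ≤ Λ * ∑ i ∈ S, x i ^ 2

/-- The bound `N` for sign vectors on the rows `S`. -/
def SgnBd {n : ℕ} (b : Fin n → Fin n → ℝ) (S : Finset (Fin n)) (N : ℝ) : Prop :=
  ∀ x : Fin n → ℝ, (∀ i, x i = 1 ∨ x i = -1) → ∑ j, (∑ i ∈ S, x i * b i j) ^ 2 ≤ N

/-- Piece A (deterministic: little Grothendieck inequality and a greedy choice). -/
def PieceA : Prop := ∀ (n : ℕ) (b : Fin n → Fin n → ℝ) (S : Finset (Fin n)) (N : ℝ),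
  S.Nonempty → SgnBd b S N →
    ∃ S' ⊆ S, 2 * S'.card ≤ S.card ∧ RowBd b (S \ S') (144 * N / S.card)

/-- The standing assumptions on the random matrix. -/
structure Hyp {n : ℕ} {Ω : Type u} [MeasurableSpace Ω] (P : Measure Ω)
    (b : Fin n → Fin n → Ω → ℝ) (K : ℝ) : Prop where
  K1 : 1 ≤ K
  meas : ∀ i j, Measurable (b i j)
  ind : iIndepFun (fun p : Fin n × Fin n => b p.1 p.2) P
  mean : ∀ i j, ∫ ω, b i j ω ∂P = 0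
  var : ∀ i j, ∫ ω, (b i j ω) ^ 2 ∂P ≤ 1 / n
  bdd : ∀ i j ω, |b i j ω| ≤ K

/-- Piece B: deleting few rows makes all column norms small. -/
def PieceB : Prop := ∀ (Ω : Type u) [MeasurableSpace Ω] (P : Measure Ω) [IsProbabilityMeasure P]
  (n : ℕ) (b : Fin n → Fin n → Ω → ℝ) (K ε R : ℝ), Hyp P b K → 0 < ε → ε ≤ 1 / 6 →
  200000 * K ^ 2 * Real.log (1 / ε) ≤ R →
  P.real {ω | ¬ ∃ I : Finset (Fin n), (I.card : ℝ) ≤ ε * n / 2 ∧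
    ∀ j, ∑ i ∈ Iᶜ, (b i j ω) ^ 2 ≤ R} ≤ Real.exp (-(ε * n))

/-- Piece C0: one column. -/
def PieceC0 : Prop := ∀ (Ω : Type u) [MeasurableSpace Ω] (P : Measure Ω) [IsProbabilityMeasure P]
  (n : ℕ) (a : Fin n → Ω → ℝ) (S : Finset (Fin n)) (K R : ℝ), S.Nonempty → 1 ≤ K →
  (∀ i, Measurable (a i)) → iIndepFun a P → (∀ i, ∫ ω, a i ω ∂P = 0) →
  (∀ i, ∫ ω, (a i ω) ^ 2 ∂P ≤ 1 / n) → (∀ i ω, |a i ω| ≤ K) →
  100000 * K ^ 2 * (1 + Real.log (n / S.card)) ≤ R →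
  ∫ ω, Real.exp ((1 + Real.log (n / S.card)) / (32 * R) *
      (if ∑ i ∈ S, (a i ω) ^ 2 ≤ R then (∑ i ∈ S, a i ω) ^ 2 else 0)) ∂P
    ≤ 1 + 2 * (S.card / n)

/-- Piece C1: sign vectors. -/
def PieceC1 : Prop := ∀ (Ω : Type u) [MeasurableSpace Ω] (P : Measure Ω) [IsProbabilityMeasure P]
  (n : ℕ) (b : Fin n → Fin n → Ω → ℝ) (K ε R : ℝ), Hyp P b K → 0 < ε → ε ≤ 1 / 6 →
  200000 * K ^ 2 * Real.log (1 / ε) ≤ R →
  P.real {ω | ∃ S : Finset (Fin n), ε * n / 2 < S.card ∧ (∀ j, ∑ i ∈ S, (b i j ω) ^ 2 ≤ R) ∧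
    ¬ SgnBd (fun i j => b i j ω) S (352 * R * S.card)} ≤ Real.exp (-(ε * n))

/-- Piece D (deterministic assembly). -/
def PieceD : Prop := ∀ (n : ℕ) (b : Fin n → Fin n → ℝ) (ε R : ℝ), 0 < ε → ε ≤ 1 / 6 → 0 ≤ R →
  (∃ I : Finset (Fin n), (I.card : ℝ) ≤ ε * n / 2 ∧ ∀ j, ∑ i ∈ Iᶜ, (b i j) ^ 2 ≤ R) →
  (∀ S : Finset (Fin n), ε * n / 2 < S.card → (∀ j, ∑ i ∈ S, (b i j) ^ 2 ≤ R) →
    SgnBd b S (352 * R * S.card)) →
  ∃ I : Finset (Fin n), (I.card : ℝ) ≤ ε * n ∧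
    RowBd b Iᶜ (4 * Real.log (1 / ε) * 144 * 352 * R)

end Pool.Agent.W2helper1.NR
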