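import Pool.Agent.W2helper1.NR.C0a

/-!
# Piece C0
-/

open MeasureTheory ProbabilityTheory

namespace Pool.Agent.W2helper1.NR

universe u

theorem abs_sub_tr_le (u x : ℝ) (hu : 0 < u) : |x - tr u x| ≤ x ^ 2 / u := by
  unfold tr
  split
  · rw [sub_self, abs_zero]; positivity
  · rename_i h
    push Not at h
    rw [sub_zero, le_div_iff₀ hu, ← sq_abs]
    nlinarith [abs_nonneg x]

theorem trunc_big {n : ℕ} (x : Fin n → ℝ) (S : Finset (Fin n)) (K R z : ℝ) (hz : 0 < z)
    (hR : 0 < R) (_hK : 0 < K) (hx : ∀ i, |x i| ≤ K) (hQ : ∑ i ∈ S, (x i) ^ 2 ≤ R)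
    (hc : z ≤ |∑ i ∈ S, x i|) :
    z / 2 ≤ |∑ i ∈ S, tr (min K (2 * R / z)) (x i)| := by
  rcases le_total K (2 * R / z) with h | h
  · rw [min_eq_left h]
    have : ∀ i, tr K (x i) = x i := fun i => by unfold tr; rw [if_pos (hx i)]
    simp only [this]
    linarith
  · rw [min_eq_right h]
    have hu : 0 < 2 * R / z := by positivity
    have h1 : |∑ i ∈ S, x i - ∑ i ∈ S, tr (2 * R / z) (x i)| ≤ z / 2 := by
      rw [← Finset.sum_sub_distrib]
      calc |∑ i ∈ S, (x i - tr (2 * R / z) (x i))| ≤ ∑ i ∈ S, |x i - tr (2 * R / z) (x i)| :=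
            Finset.abs_sum_le_sum_abs _ _
        _ ≤ ∑ i ∈ S, (x i) ^ 2 / (2 * R / z) :=
            Finset.sum_le_sum (fun i _ => abs_sub_tr_le _ _ hu)
        _ = (∑ i ∈ S, (x i) ^ 2) / (2 * R / z) := by rw [Finset.sum_div]
        _ ≤ R / (2 * R / z) := div_le_div_of_nonneg_right hQ hu.le
        _ = z / 2 := by field_simp
    have h2 : |∑ i ∈ S, x i| ≤ |∑ i ∈ S, x i - ∑ i ∈ S, tr (2 * R / z) (x i)| +
        |∑ i ∈ S, tr (2 * R / z) (x i)| := by
      calc |∑ i ∈ S, x i| = |(∑ i ∈ S, x i - ∑ i ∈ S, tr (2 * R / z) (x i)) +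
          ∑ i ∈ S, tr (2 * R / z) (x i)| := by ring_nf
        _ ≤ _ := abs_add_le _ _
    linarith

theorem sq_le_cosh (y : ℝ) : y ^ 2 ≤ Real.exp y + Real.exp (-y) - 2 := by
  have key : ∀ t : ℝ, 0 ≤ t → (2 * t) ^ 2 ≤ Real.exp (2 * t) + Real.exp (-(2 * t)) - 2 := by
    intro t ht
    have h1 : t ≤ Real.sinh t := Real.self_le_sinh_iff.2 ht
    rw [Real.sinh_eq] at h1
    have h2 : Real.exp (2 * t) = Real.exp t * Real.exp t := by rw [← Real.exp_add]; ring_nf
    have h3 : Real.exp (-(2 * t)) = Real.exp (-t) * Real.exp (-t) := by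
      rw [← Real.exp_add]; ring_nf
    have h4 : Real.exp t * Real.exp (-t) = 1 := by rw [← Real.exp_add]; simp
    have h5 : (2 * t) ^ 2 ≤ (Real.exp t - Real.exp (-t)) ^ 2 := by
      apply pow_le_pow_left₀ (by linarith); linarith
    rw [h2, h3]
    nlinarith
  rcases le_total 0 y with h | h
  · have := key (y / 2) (by linarith)
    rw [show 2 * (y / 2) = y by ring] at this
    exact this
  · have := key (-y / 2) (by linarith)
    rw [show 2 * (-y / 2) = -y by ring, neg_neg, neg_sq] at this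
    linarith

theorem exp_four_le : Real.exp 4 ≤ 55 := by
  have h := Real.exp_one_lt_d9
  have h0 := Real.exp_pos 1
  have e : Real.exp 4 = Real.exp 1 ^ 4 := by rw [← Real.exp_nat_mul]; norm_num
  rw [e]
  calc Real.exp 1 ^ 4 ≤ (2.7182818286 : ℝ) ^ 4 := pow_le_pow_left₀ h0.le h.le 4
    _ ≤ 55 := by norm_num

/-- the numerical inequality for one level -/
theorem numeric (K R lam z : ℝ) (hK : 1 ≤ K) (hl : 1 ≤ lam) (hR : 100000 * K ^ 2 * lam ≤ R)
    (hz : 220 * K ≤ z) :
    4 * (lam / (32 * R)) * z ^ 2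
      - Real.log (1 + z * (min K (2 * R / z)) / (4 * Real.exp (1 - lam))) /
          (min K (2 * R / z)) * (z / 2)
      + Real.exp (1 - lam) *
        (Real.exp (Real.log (1 + z * (min K (2 * R / z)) / (4 * Real.exp (1 - lam)))) - 1) /
          (min K (2 * R / z)) ^ 2 ≤ -(z / (4 * K)) * (lam + 5) := by
  have hK0 : 0 < K := by linarith
  have hz0 : 0 < z := by linarith
  have hR1 : 110 ≤ R := by nlinarith [mul_le_mul hl (show (1:ℝ) ≤ K ^ 2 by nlinarith) (by norm_num) (by linarith)]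
  have hR0 : 0 < R := by linarith
  set u := min K (2 * R / z) with hu
  have hu0 : 0 < u := by rw [hu]; exact lt_min hK0 (by positivity)
  set d := Real.exp (1 - lam) with hd
  have hd0 : 0 < d := Real.exp_pos _
  have hzu : 220 ≤ z * u := by
    rw [hu]
    rcases le_total K (2 * R / z) with h | h
    · rw [min_eq_left h]; nlinarith
    · rw [min_eq_right h]
      have : z * (2 * R / z) = 2 * R := by field_simp
      rw [this]; linarith
  have hpos : 0 < 1 + z * u / (4 * d) := by positivity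
  rw [Real.exp_log hpos]
  have e1 : d * (1 + z * u / (4 * d) - 1) / u ^ 2 = z / (4 * u) := by
    field_simp
    ring
  rw [e1]
  set s := Real.log (1 + z * u / (4 * d)) with hs
  have hs1 : lam + 3 ≤ s := by
    rw [hs, Real.le_log_iff_exp_le hpos]
    have h1 : Real.exp (lam + 3) = Real.exp 4 / d := by
      rw [hd, ← Real.exp_sub]; ring_nf
    rw [h1]
    have h2 : Real.exp 4 / d ≤ (z * u / 4) / d := by
      refine div_le_div_of_nonneg_right ?_ hd0.le
      have := exp_four_le
      linarith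
    have h3 : (z * u / 4) / d = z * u / (4 * d) := by field_simp
    linarith
  have e2 : s / u * (z / 2) = s * (z / (2 * u)) := by field_simp
  rw [e2]
  have h4 : (lam + 3) * (z / (2 * u)) ≤ s * (z / (2 * u)) :=
    mul_le_mul_of_nonneg_right hs1 (by positivity)
  -- it remains to compare
  have key : 4 * (lam / (32 * R)) * z ^ 2 - (lam + 3) * (z / (2 * u)) + z / (4 * u) ≤
      -(z / (4 * K)) * (lam + 5) := by
    rcases le_total K (2 * R / z) with h | h
    · have huK : u = K := by rw [hu, min_eq_left h]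
      rw [huK]
      have h5 : z * K ≤ 2 * R := by
        rw [le_div_iff₀ hz0] at h; linarith
      have h6 : 4 * (lam / (32 * R)) * z ^ 2 ≤ lam * (z / (4 * K)) := by
        have : 4 * (lam / (32 * R)) * z ^ 2 = lam * (z * z / (8 * R)) := by
          field_simp; ring
        rw [this]
        refine mul_le_mul_of_nonneg_left ?_ (by linarith)
        rw [div_le_div_iff₀ (by positivity) (by positivity)]
        nlinarith
      have h7 : (lam + 3) * (z / (2 * K)) = (lam + 3) * 2 * (z / (4 * K)) := by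
        field_simp; ring
      rw [h7]
      nlinarith
    · have huR : u = 2 * R / z := by rw [hu, min_eq_right h]
      have h5 : 2 * R ≤ z * K := by
        rw [div_le_iff₀ hz0] at h; linarith
      have e3 : z / (2 * u) = 2 * (z * z / (8 * R)) := by
        rw [huR]; field_simp; ring
      have e4 : z / (4 * u) = z * z / (8 * R) := by
        rw [huR]; field_simp; ring
      have e5 : 4 * (lam / (32 * R)) * z ^ 2 = lam * (z * z / (8 * R)) := by
        field_simp; ring
      rw [e3, e4, e5]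
      have h6 : z / (4 * K) ≤ z * z / (8 * R) := by
        rw [div_le_div_iff₀ (by positivity) (by positivity)]
        nlinarith
      nlinarith
  linarith

/-- the level exponent -/
theorem level_exp (K lam : ℝ) (hK : 1 ≤ K) (hl : 1 ≤ lam) (b : ℕ) :
    Real.exp (-((220 * K * 2 ^ b) / (4 * K)) * (lam + 5)) ≤
      Real.exp (1 - lam) * (1 / 2) ^ (b + 2) := by
  have hK0 : 0 < K := by linarith
  have e1 : (220 * K * 2 ^ b) / (4 * K) = 55 * (2:ℝ) ^ b := by
    field_simp; ring
  rw [e1]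
  have h1 : (1 / 2 : ℝ) ^ (b + 2) ≥ Real.exp (-((b : ℝ) + 2)) := by
    have h2 : Real.exp (-1) ≤ 1 / 2 := by
      rw [Real.exp_neg, inv_le_comm₀ (Real.exp_pos _) (by norm_num)]
      have := Real.add_one_le_exp (1:ℝ)
      norm_num at this ⊢
      linarith
    have h3 : Real.exp (-((b : ℝ) + 2)) = Real.exp (-1) ^ (b + 2) := by
      rw [← Real.exp_nat_mul]; congr 1; push_cast; ring
    rw [h3]
    exact pow_le_pow_left₀ (Real.exp_pos _).le h2 _
  refine le_trans ?_ (mul_le_mul_of_nonneg_left h1 (Real.exp_pos _).le)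
  rw [← Real.exp_add]
  refine Real.exp_le_exp.2 ?_
  have h4 : (b : ℝ) + 1 ≤ 2 ^ b := by
    exact_mod_cast Nat.lt_two_pow_self
  have h5 : (1:ℝ) ≤ 2 ^ b := one_le_pow₀ (by norm_num)
  have h6 : (lam - 1) ≤ 2 ^ b * (lam - 1) := by nlinarith
  nlinarith

variable {Ω : Type u} [MeasurableSpace Ω] {P : Measure Ω} {n : ℕ}

theorem E_int [IsProbabilityMeasure P] {a : Fin n → Ω → ℝ} (hm : ∀ i, Measurable (a i))
    (S : Finset (Fin n)) (u r : ℝ) (hu : 0 < u) :
    Integrable (fun ω => Real.exp (r * ∑ i ∈ S, tr u (a i ω))) P := by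
  have hmeas : Measurable (fun ω => ∑ i ∈ S, tr u (a i ω)) :=
    Finset.measurable_fun_sum _ (fun i _ => (measurable_tr u).comp (hm i))
  refine integrable_of_bdd ((hmeas.const_mul _).exp) (Real.exp (|r| * (S.card * u))) (fun ω => ?_)
  rw [abs_of_pos (Real.exp_pos _)]
  refine Real.exp_le_exp.2 ((le_abs_self _).trans ?_)
  rw [abs_mul]
  refine mul_le_mul_of_nonneg_left ?_ (abs_nonneg _)
  refine (Finset.abs_sum_le_sum_abs _ _).trans ?_
  refine (Finset.sum_le_sum (fun i _ => abs_tr_le u (a i ω) hu.le)).trans ?_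
  rw [Finset.sum_const, nsmul_eq_mul]

theorem pieceC0 : PieceC0.{u} := by
  intro Ω _ P _ n a S K R hS hK hm hind h0 hv hb hR
  classical
  have hk0 : 0 < S.card := hS.card_pos
  have hkn : S.card ≤ n := by simpa using S.card_le_univ
  have hn0 : 0 < n := by omega
  have hkR : (0:ℝ) < S.card := by exact_mod_cast hk0
  have hnR : (0:ℝ) < n := by exact_mod_cast hn0
  have hknR : (S.card : ℝ) ≤ n := by exact_mod_cast hkn
  have hlog : 0 ≤ Real.log (n / S.card) := Real.log_nonneg (by rw [le_div_iff₀ hkR]; linarith)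
  set lam : ℝ := 1 + Real.log (n / S.card) with hlam
  have hl : 1 ≤ lam := by linarith
  have hd : Real.exp (1 - lam) = S.card / n := by
    rw [hlam, show 1 - (1 + Real.log (n / S.card)) = -Real.log (n / S.card) by ring,
      Real.exp_neg, Real.exp_log (by positivity), inv_div]
  have hK0 : 0 < K := by linarith
  have hK2 : 1 ≤ K ^ 2 := by nlinarith
  have hR1 : 100000 ≤ R := by nlinarith
  have hR0 : 0 < R := by linarith
  have hmu0 : 0 ≤ lam / (32 * R) := by positivity
  have hmu1 : lam / (32 * R) * K ^ 2 ≤ 1 / 3200000 := by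
    rw [div_mul_eq_mul_div, div_le_div_iff₀ (by positivity) (by norm_num)]
    nlinarith
  have hmu2 : lam / (32 * R) ≤ 1 / 3200000 := by
    refine le_trans ?_ hmu1
    nlinarith
  set μ : ℝ := lam / (32 * R) with hμ
  let z : ℕ → ℝ := fun b => 220 * K * 2 ^ b
  let uu : ℕ → ℝ := fun b => min K (2 * R / z b)
  let ss : ℕ → ℝ := fun b => Real.log (1 + z b * uu b / (4 * Real.exp (1 - lam)))
  have hz0 : ∀ b, 0 < z b := fun b => by positivity
  have hz1 : ∀ b, 220 * K ≤ z b := fun b => by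
    have : (1:ℝ) ≤ 2 ^ b := one_le_pow₀ (by norm_num)
    show 220 * K ≤ 220 * K * 2 ^ b
    nlinarith
  have hu0 : ∀ b, 0 < uu b := fun b => lt_min hK0 (by have := hz0 b; positivity)
  have hs0 : ∀ b, 0 ≤ ss b := fun b => Real.log_nonneg (by
    have : 0 ≤ z b * uu b / (4 * Real.exp (1 - lam)) := by
      have := hz0 b; have := hu0 b; positivity
    linarith)
  let E : ℝ → ℝ → ℝ → Ω → ℝ := fun σ s u ω =>
    Real.exp (σ * (s / u) * ∑ i ∈ S, tr u (a i ω))
  have hEpos : ∀ σ s u ω, 0 < E σ s u ω := fun _ _ _ _ => Real.exp_pos _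
  have hEint : ∀ σ s u, 0 < u → Integrable (E σ s u) P := fun σ s u hu =>
    E_int hm S u (σ * (s / u)) hu
  let cf : ℕ → ℝ := fun b => Real.exp (4 * μ * z b ^ 2) * Real.exp (-(ss b / uu b * (z b / 2)))
  have hcf : ∀ b, 0 < cf b := fun b => by positivity
  let G : Ω → ℝ := fun ω => 1 + 3 * (μ * K ^ 2) * (E 1 1 K ω + E (-1) 1 K ω - 2) +
    ∑ b ∈ Finset.range n, cf b * (E 1 (ss b) (uu b) ω + E (-1) (ss b) (uu b) ω)
  -- the first moment term
  have hcK : ∀ ω, E 1 1 K ω = Real.exp ((∑ i ∈ S, a i ω) / K) := by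
    intro ω
    have : ∀ i, tr K (a i ω) = a i ω := fun i => by unfold tr; rw [if_pos (hb i ω)]
    simp only [E, this]
    congr 1; ring
  have hcK' : ∀ ω, E (-1) 1 K ω = Real.exp (-((∑ i ∈ S, a i ω) / K)) := by
    intro ω
    have : ∀ i, tr K (a i ω) = a i ω := fun i => by unfold tr; rw [if_pos (hb i ω)]
    simp only [E, this]
    congr 1; ring
  have hc2 : ∀ ω, (∑ i ∈ S, a i ω) ^ 2 ≤ K ^ 2 * (E 1 1 K ω + E (-1) 1 K ω - 2) := by
    intro ω
    rw [hcK, hcK']
    have := sq_le_cosh ((∑ i ∈ S, a i ω) / K)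
    rw [div_pow, div_le_iff₀ (by positivity)] at this
    linarith
  have hsumnn : ∀ ω, 0 ≤ ∑ b ∈ Finset.range n,
      cf b * (E 1 (ss b) (uu b) ω + E (-1) (ss b) (uu b) ω) := fun ω =>
    Finset.sum_nonneg (fun b _ => mul_nonneg (hcf b).le
      (add_nonneg (hEpos _ _ _ _).le (hEpos _ _ _ _).le))
  have hpt : ∀ ω, Real.exp (μ * (if ∑ i ∈ S, (a i ω) ^ 2 ≤ R then (∑ i ∈ S, a i ω) ^ 2 else 0))
      ≤ G ω := by
    intro ω
    have h1 := hc2 ω
    have h1' : 0 ≤ 3 * (μ * K ^ 2) * (E 1 1 K ω + E (-1) 1 K ω - 2) := by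
      have h2 : 0 ≤ K ^ 2 * (E 1 1 K ω + E (-1) 1 K ω - 2) := le_trans (sq_nonneg _) h1
      have : 3 * (μ * K ^ 2) * (E 1 1 K ω + E (-1) 1 K ω - 2) =
        3 * μ * (K ^ 2 * (E 1 1 K ω + E (-1) 1 K ω - 2)) := by ring
      rw [this]
      exact mul_nonneg (by positivity) h2
    have h2 := hsumnn ω
    by_cases hQ : ∑ i ∈ S, (a i ω) ^ 2 ≤ R
    · rw [if_pos hQ]
      rcases le_or_gt |∑ i ∈ S, a i ω| (220 * K) with hc | hc
      · -- small
        have hy1 : μ * (∑ i ∈ S, a i ω) ^ 2 ≤ 1 := by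
          have h3 : (∑ i ∈ S, a i ω) ^ 2 ≤ (220 * K) ^ 2 := by
            rw [← sq_abs]; exact pow_le_pow_left₀ (abs_nonneg _) hc 2
          calc μ * (∑ i ∈ S, a i ω) ^ 2 ≤ μ * (220 * K) ^ 2 :=
                mul_le_mul_of_nonneg_left h3 hmu0
            _ = 48400 * (μ * K ^ 2) := by ring
            _ ≤ 48400 * (1 / 3200000) := by linarith
            _ ≤ 1 := by norm_num
        have hy0 : 0 ≤ μ * (∑ i ∈ S, a i ω) ^ 2 := by positivity
        have h4 : Real.exp (μ * (∑ i ∈ S, a i ω) ^ 2) ≤ 1 + 3 * (μ * (∑ i ∈ S, a i ω) ^ 2) := by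
          set y := μ * (∑ i ∈ S, a i ω) ^ 2
          have h5 : 1 - y ≤ Real.exp (-y) := by
            have := Real.add_one_le_exp (-y); linarith
          have h6 : Real.exp y * Real.exp (-y) = 1 := by rw [← Real.exp_add]; simp
          have h7 : Real.exp y ≤ 3 := by
            have := Real.exp_le_exp.2 hy1
            have := Real.exp_one_lt_d9
            linarith
          nlinarith [Real.exp_pos y]
        have h8 : μ * (∑ i ∈ S, a i ω) ^ 2 ≤ μ * (K ^ 2 * (E 1 1 K ω + E (-1) 1 K ω - 2)) :=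
          mul_le_mul_of_nonneg_left h1 hmu0
        show _ ≤ 1 + 3 * (μ * K ^ 2) * (E 1 1 K ω + E (-1) 1 K ω - 2) + _
        nlinarith
      · -- large
        have hx1 : 1 ≤ |∑ i ∈ S, a i ω| / (220 * K) := by
          rw [le_div_iff₀ (by positivity)]; linarith
        obtain ⟨b, hb1, hb2⟩ := exists_nat_pow_near hx1 (by norm_num : (1:ℝ) < 2)
        have hzb : z b ≤ |∑ i ∈ S, a i ω| := by
          rw [le_div_iff₀ (by positivity)] at hb1
          show 220 * K * 2 ^ b ≤ _
          linarith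
        have hzb2 : |∑ i ∈ S, a i ω| < 2 * z b := by
          rw [div_lt_iff₀ (by positivity), pow_succ] at hb2
          show _ < 2 * (220 * K * 2 ^ b)
          linarith
        have hbn : b < n := by
          by_contra hcon
          push Not at hcon
          have h3 : (n:ℝ) + 1 ≤ 2 ^ b := by
            have : n + 1 ≤ 2 ^ b := by
              calc n + 1 ≤ b + 1 := by omega
                _ ≤ 2 ^ b := Nat.lt_two_pow_self
            exact_mod_cast this
          have h4 : |∑ i ∈ S, a i ω| ≤ n * K := by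
            calc |∑ i ∈ S, a i ω| ≤ ∑ i ∈ S, |a i ω| := Finset.abs_sum_le_sum_abs _ _
              _ ≤ ∑ i ∈ S, K := Finset.sum_le_sum (fun i _ => hb i ω)
              _ = S.card * K := by rw [Finset.sum_const, nsmul_eq_mul]
              _ ≤ n * K := mul_le_mul_of_nonneg_right hknR hK0.le
          have h5 : 220 * K * 2 ^ b ≤ n * K := le_trans hzb h4
          nlinarith
        have hX := trunc_big (fun i => a i ω) S K R (z b) (hz0 b) hR0 hK0 (fun i => hb i ω) hQ hzb
        have h3 : Real.exp (μ * (∑ i ∈ S, a i ω) ^ 2) ≤ Real.exp (4 * μ * z b ^ 2) := by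
          refine Real.exp_le_exp.2 ?_
          have h4 : (∑ i ∈ S, a i ω) ^ 2 ≤ (2 * z b) ^ 2 := by
            rw [← sq_abs]; exact pow_le_pow_left₀ (abs_nonneg _) hzb2.le 2
          calc μ * (∑ i ∈ S, a i ω) ^ 2 ≤ μ * (2 * z b) ^ 2 :=
                mul_le_mul_of_nonneg_left h4 hmu0
            _ = 4 * μ * z b ^ 2 := by ring
        have hE : Real.exp (ss b / uu b * (z b / 2)) ≤
            E 1 (ss b) (uu b) ω + E (-1) (ss b) (uu b) ω := by
          have hsu : 0 ≤ ss b / uu b := div_nonneg (hs0 b) (hu0 b).le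
          have h5 : ss b / uu b * (z b / 2) ≤
              ss b / uu b * |∑ i ∈ S, tr (uu b) (a i ω)| :=
            mul_le_mul_of_nonneg_left hX hsu
          rcases abs_cases (∑ i ∈ S, tr (uu b) (a i ω)) with ⟨h6, _⟩ | ⟨h6, _⟩
          · have h7 : Real.exp (ss b / uu b * (z b / 2)) ≤ E 1 (ss b) (uu b) ω := by
              refine Real.exp_le_exp.2 (h5.trans (le_of_eq ?_))
              rw [h6]; ring
            linarith [hEpos (-1) (ss b) (uu b) ω]
          · have h7 : Real.exp (ss b / uu b * (z b / 2)) ≤ E (-1) (ss b) (uu b) ω := by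
              refine Real.exp_le_exp.2 (h5.trans (le_of_eq ?_))
              rw [h6]; ring
            linarith [hEpos 1 (ss b) (uu b) ω]
        have h8 : Real.exp (4 * μ * z b ^ 2) ≤
            cf b * (E 1 (ss b) (uu b) ω + E (-1) (ss b) (uu b) ω) := by
          calc Real.exp (4 * μ * z b ^ 2) = Real.exp (4 * μ * z b ^ 2) *
                (Real.exp (-(ss b / uu b * (z b / 2))) * Real.exp (ss b / uu b * (z b / 2))) := by
                rw [← Real.exp_add]; simp
            _ = cf b * Real.exp (ss b / uu b * (z b / 2)) := by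
                simp only [cf]; ring
            _ ≤ _ := mul_le_mul_of_nonneg_left hE (hcf b).le
        have h9 : cf b * (E 1 (ss b) (uu b) ω + E (-1) (ss b) (uu b) ω) ≤
            ∑ b ∈ Finset.range n, cf b * (E 1 (ss b) (uu b) ω + E (-1) (ss b) (uu b) ω) :=
          Finset.single_le_sum (f := fun b => cf b * (E 1 (ss b) (uu b) ω + E (-1) (ss b) (uu b) ω))
            (fun b _ => mul_nonneg (hcf b).le
              (add_nonneg (hEpos _ _ _ _).le (hEpos _ _ _ _).le)) (Finset.mem_range.2 hbn)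
        show _ ≤ 1 + 3 * (μ * K ^ 2) * (E 1 1 K ω + E (-1) 1 K ω - 2) + _
        linarith
    · rw [if_neg hQ, mul_zero, Real.exp_zero]
      show 1 ≤ 1 + 3 * (μ * K ^ 2) * (E 1 1 K ω + E (-1) 1 K ω - 2) + _
      linarith
  -- integrate
  have hLmeas : Measurable (fun ω => Real.exp (μ *
      (if ∑ i ∈ S, (a i ω) ^ 2 ≤ R then (∑ i ∈ S, a i ω) ^ 2 else 0))) := by
    refine Measurable.exp (Measurable.const_mul ?_ _)
    refine Measurable.ite (measurableSet_le
      (Finset.measurable_fun_sum _ (fun i _ => (hm i).pow_const 2)) measurable_const) ?_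
      measurable_const
    exact (Finset.measurable_fun_sum _ (fun i _ => hm i)).pow_const 2
  have hI1 : Integrable (fun ω => 1 + 3 * (μ * K ^ 2) * (E 1 1 K ω + E (-1) 1 K ω - 2)) P :=
    (integrable_const 1).add ((((hEint 1 1 K hK0).add (hEint (-1) 1 K hK0)).sub
      (integrable_const 2)).const_mul _)
  have hI2 : ∀ b ∈ Finset.range n, Integrable (fun ω =>
      cf b * (E 1 (ss b) (uu b) ω + E (-1) (ss b) (uu b) ω)) P := fun b _ =>
    ((hEint 1 (ss b) (uu b) (hu0 b)).add (hEint (-1) (ss b) (uu b) (hu0 b))).const_mul _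
  have hGint : Integrable G P := hI1.add (integrable_finsetSum _ hI2)
  have hLint : Integrable (fun ω => Real.exp (μ *
      (if ∑ i ∈ S, (a i ω) ^ 2 ≤ R then (∑ i ∈ S, a i ω) ^ 2 else 0))) P := by
    refine hGint.mono' hLmeas.aestronglyMeasurable (Filter.Eventually.of_forall (fun ω => ?_))
    rw [Real.norm_eq_abs, abs_of_pos (Real.exp_pos _)]
    exact hpt ω
  have hEb : ∀ σ s u, (σ = 1 ∨ σ = -1) → 0 < u → 0 ≤ s →
      ∫ ω, E σ s u ω ∂P ≤ Real.exp (Real.exp (1 - lam) * (Real.exp s - 1) / u ^ 2) := by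
    intro σ s u hσ hu hs
    have := mgf_sum hm hind K hb h0 (1 / n) hv S u s hu hs σ hσ
    rw [hd]
    refine this.trans (le_of_eq ?_)
    congr 1; ring
  -- first term
  have hT1 : 3 * (μ * K ^ 2) * (∫ ω, E 1 1 K ω ∂P + ∫ ω, E (-1) 1 K ω ∂P - 2) ≤
      Real.exp (1 - lam) := by
    have e1 := hEb 1 1 K (Or.inl rfl) hK0 zero_le_one
    have e2 := hEb (-1) 1 K (Or.inr rfl) hK0 zero_le_one
    have he1 := Real.exp_one_lt_d9
    have he2 : 1 + 1 ≤ Real.exp 1 := Real.add_one_le_exp 1
    have hdle : Real.exp (1 - lam) ≤ 1 := by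
      have h := Real.exp_le_exp.2 (show 1 - lam ≤ 0 by linarith)
      rwa [Real.exp_zero] at h
    have hdp := Real.exp_pos (1 - lam)
    set d := Real.exp (1 - lam)
    set y := d * (Real.exp 1 - 1) / K ^ 2 with hy
    have hy0 : 0 ≤ y := div_nonneg (mul_nonneg hdp.le (by linarith)) (by positivity)
    have hyK : y * K ^ 2 = d * (Real.exp 1 - 1) := by rw [hy]; field_simp
    have hy2 : y ≤ 2 := by
      rw [hy, div_le_iff₀ (by positivity)]
      nlinarith
    have h5 : 1 - y ≤ Real.exp (-y) := by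
      have := Real.add_one_le_exp (-y); linarith
    have h6 : Real.exp y * Real.exp (-y) = 1 := by rw [← Real.exp_add]; simp
    have h7 : Real.exp y ≤ 8 := by
      have h8 := Real.exp_le_exp.2 hy2
      have h9 : Real.exp 2 = Real.exp 1 ^ 2 := by rw [← Real.exp_nat_mul]; norm_num
      have h10 : Real.exp 1 ^ 2 ≤ (2.7182818286 : ℝ) ^ 2 :=
        pow_le_pow_left₀ (Real.exp_pos 1).le he1.le 2
      have h11 : (2.7182818286 : ℝ) ^ 2 ≤ 8 := by norm_num
      linarith
    have h8 : Real.exp y - 1 ≤ 8 * y := by nlinarith [Real.exp_pos y]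
    have h9 : ∫ ω, E 1 1 K ω ∂P + ∫ ω, E (-1) 1 K ω ∂P - 2 ≤ 16 * y := by linarith
    have hmK : 0 ≤ μ * K ^ 2 := by positivity
    calc 3 * (μ * K ^ 2) * (∫ ω, E 1 1 K ω ∂P + ∫ ω, E (-1) 1 K ω ∂P - 2)
        ≤ 3 * (μ * K ^ 2) * (16 * y) := mul_le_mul_of_nonneg_left h9 (by positivity)
      _ = 48 * μ * (y * K ^ 2) := by ring
      _ = 48 * μ * (d * (Real.exp 1 - 1)) := by rw [hyK]
      _ ≤ d := by
          have h12 : 48 * μ * (Real.exp 1 - 1) ≤ 1 := by nlinarith
          nlinarith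
  -- level terms
  have hT2 : ∀ b, cf b * (∫ ω, E 1 (ss b) (uu b) ω ∂P + ∫ ω, E (-1) (ss b) (uu b) ω ∂P) ≤
      Real.exp (1 - lam) * ((1 / 2) * (1 / 2) ^ b) := by
    intro b
    have e1 := hEb 1 (ss b) (uu b) (Or.inl rfl) (hu0 b) (hs0 b)
    have e2 := hEb (-1) (ss b) (uu b) (Or.inr rfl) (hu0 b) (hs0 b)
    have h3 := numeric K R lam (z b) hK hl hR (hz1 b)
    have h4 := level_exp K lam hK hl b
    calc cf b * (∫ ω, E 1 (ss b) (uu b) ω ∂P + ∫ ω, E (-1) (ss b) (uu b) ω ∂P)
        ≤ cf b * (2 * Real.exp (Real.exp (1 - lam) * (Real.exp (ss b) - 1) / (uu b) ^ 2)) :=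
          mul_le_mul_of_nonneg_left (by linarith) (hcf b).le
      _ = 2 * Real.exp (4 * (lam / (32 * R)) * z b ^ 2 - ss b / uu b * (z b / 2) +
            Real.exp (1 - lam) * (Real.exp (ss b) - 1) / (uu b) ^ 2) := by
          have haux : ∀ A B C : ℝ, Real.exp A * Real.exp (-B) * (2 * Real.exp C) =
              2 * Real.exp (A - B + C) := by
            intro A B C
            rw [Real.exp_add, Real.exp_sub, Real.exp_neg]
            ring
          exact haux _ _ _
      _ ≤ 2 * Real.exp (-(z b / (4 * K)) * (lam + 5)) := by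
          refine mul_le_mul_of_nonneg_left (Real.exp_le_exp.2 h3) (by norm_num)
      _ ≤ 2 * (Real.exp (1 - lam) * (1 / 2) ^ (b + 2)) :=
          mul_le_mul_of_nonneg_left h4 (by norm_num)
      _ = Real.exp (1 - lam) * ((1 / 2) * (1 / 2) ^ b) := by
          rw [pow_add]; ring
  calc ∫ ω, Real.exp (μ *
        (if ∑ i ∈ S, (a i ω) ^ 2 ≤ R then (∑ i ∈ S, a i ω) ^ 2 else 0)) ∂P
      ≤ ∫ ω, G ω ∂P := integral_mono hLint hGint hpt
    _ = (1 + 3 * (μ * K ^ 2) * (∫ ω, E 1 1 K ω ∂P + ∫ ω, E (-1) 1 K ω ∂P - 2)) +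
        ∑ b ∈ Finset.range n, cf b *
          (∫ ω, E 1 (ss b) (uu b) ω ∂P + ∫ ω, E (-1) (ss b) (uu b) ω ∂P) := by
        simp only [G]
        rw [integral_add hI1 (integrable_finsetSum _ hI2), integral_finsetSum _ hI2]
        congr 1
        · have hJ1 : Integrable (fun ω => E 1 1 K ω + E (-1) 1 K ω) P :=
            (hEint 1 1 K hK0).add (hEint (-1) 1 K hK0)
          have hJ2 : Integrable (fun ω => E 1 1 K ω + E (-1) 1 K ω - 2) P :=
            hJ1.sub (integrable_const 2)
          rw [integral_add (integrable_const 1) (hJ2.const_mul _), integral_const_mul,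
            integral_sub hJ1 (integrable_const 2),
            integral_add (hEint 1 1 K hK0) (hEint (-1) 1 K hK0)]
          simp
        · refine Finset.sum_congr rfl (fun b _ => ?_)
          rw [integral_const_mul, integral_add (hEint _ _ _ (hu0 b)) (hEint _ _ _ (hu0 b))]
    _ ≤ (1 + Real.exp (1 - lam)) + ∑ b ∈ Finset.range n,
          Real.exp (1 - lam) * ((1 / 2) * (1 / 2) ^ b) := by
        refine add_le_add (by linarith) (Finset.sum_le_sum (fun b _ => hT2 b))
    _ ≤ 1 + 2 * (S.card / n) := by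
        rw [← Finset.mul_sum, ← Finset.mul_sum]
        have h5 := sum_geometric_two_le n
        have h6 := Real.exp_pos (1 - lam)
        rw [hd] at h6 ⊢
        nlinarith

end Pool.Agent.W2helper1.NR
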