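import Pool.Agent.W2helper1.NR.Ind

/-!
# Piece C0, elementary part: truncation and moment generating functions
-/

open MeasureTheory ProbabilityTheory

namespace Pool.Agent.W2helper1.NR

universe u

/-- truncation at level `u` -/
noncomputable def tr (u x : ℝ) : ℝ := if |x| ≤ u then x else 0

theorem measurable_tr (u : ℝ) : Measurable (tr u) := by
  unfold tr
  exact Measurable.ite (measurableSet_le measurable_abs measurable_const) measurable_id
    measurable_const

theorem tr_neg (u x : ℝ) : tr u (-x) = - tr u x := by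
  unfold tr
  rw [abs_neg]
  split <;> simp

theorem hasSum_exp (x : ℝ) : HasSum (fun m : ℕ => x ^ m / (Nat.factorial m : ℝ)) (Real.exp x) := by
  rw [Real.exp_eq_exp_ℝ]
  exact NormedSpace.expSeries_div_hasSum_exp x

theorem exp_le_series (s η : ℝ) (hs : 0 ≤ s) (hη : |η| ≤ 1) :
    Real.exp (s * η) ≤ 1 + s * η + (Real.exp s - 1 - s) * η ^ 2 := by
  have h1 := hasSum_exp (s * η)
  have h2 := (hasSum_exp s).mul_right (η ^ 2)
  have h3 : HasSum (fun m : ℕ => if m = 0 then (1 - η ^ 2) else 0) (1 - η ^ 2) :=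
    hasSum_ite_eq 0 (1 - η ^ 2)
  have h4 : HasSum (fun m : ℕ => if m = 1 then (s * η - s * η ^ 2) else 0)
      (s * η - s * η ^ 2) := hasSum_ite_eq 1 _
  have h5 := (h2.add h3).add h4
  have h6 := hasSum_le (fun m => ?_) h1 h5
  · linarith
  · rcases m with _ | _ | m
    · simp
    · simp
    · have e1 : ¬ (m + 1 + 1 = 0) := by omega
      have e2 : ¬ (m + 1 + 1 = 1) := by omega
      simp only [e1, e2, if_false, add_zero]
      have hp : (0:ℝ) < (Nat.factorial (m + 1 + 1) : ℝ) := by positivity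
      rw [div_mul_eq_mul_div, mul_pow]
      refine div_le_div_of_nonneg_right ?_ hp.le
      refine mul_le_mul_of_nonneg_left ?_ (pow_nonneg hs _)
      calc η ^ (m + 1 + 1) ≤ |η ^ (m + 1 + 1)| := le_abs_self _
        _ = |η| ^ (m + 1 + 1) := abs_pow _ _
        _ = |η| ^ m * |η| ^ 2 := by ring
        _ ≤ 1 * |η| ^ 2 := by
            refine mul_le_mul_of_nonneg_right (pow_le_one₀ (abs_nonneg _) hη) (by positivity)
        _ = η ^ 2 := by rw [one_mul, sq_abs]

theorem exp_tr_le (u s x : ℝ) (hu : 0 < u) (hs : 0 ≤ s) :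
    Real.exp (s / u * tr u x) ≤ 1 + s / u * x + (Real.exp s - 1) / u ^ 2 * x ^ 2 := by
  have hes : s + 1 ≤ Real.exp s := Real.add_one_le_exp s
  unfold tr
  split
  · rename_i h
    have hη : |x / u| ≤ 1 := by
      rw [abs_div, abs_of_pos hu, div_le_one hu]; exact h
    have h1 := exp_le_series s (x / u) hs hη
    have e1 : s / u * x = s * (x / u) := by ring
    rw [e1]
    refine h1.trans ?_
    have e2 : (Real.exp s - 1) / u ^ 2 * x ^ 2 = (Real.exp s - 1) * (x / u) ^ 2 := by
      field_simp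
    rw [e2]
    nlinarith [mul_nonneg hs (sq_nonneg (x / u))]
  · rename_i h
    push Not at h
    rw [mul_zero, Real.exp_zero]
    have e2 : (Real.exp s - 1) / u ^ 2 * x ^ 2 = (Real.exp s - 1) * (|x| / u) ^ 2 := by
      rw [div_pow, sq_abs]; field_simp
    have e3 : -(s * (|x| / u)) ≤ s / u * x := by
      have : s / u * x = s / u * x := rfl
      have h2 : -|x| ≤ x := neg_abs_le x
      have h3 : s / u * (-|x|) ≤ s / u * x :=
        mul_le_mul_of_nonneg_left h2 (div_nonneg hs hu.le)
      calc -(s * (|x| / u)) = s / u * (-|x|) := by ring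
        _ ≤ _ := h3
    have h4 : 1 < |x| / u := by rw [lt_div_iff₀ hu]; linarith
    have h5 : s * (|x| / u) ≤ (Real.exp s - 1) * (|x| / u) ^ 2 := by
      have : |x| / u ≤ (|x| / u) ^ 2 := by nlinarith
      calc s * (|x| / u) ≤ (Real.exp s - 1) * (|x| / u) := by
            refine mul_le_mul_of_nonneg_right (by linarith) (by linarith)
        _ ≤ _ := mul_le_mul_of_nonneg_left this (by linarith)
    rw [e2]
    linarith

theorem exp_neg_tr_le (u s x : ℝ) (hu : 0 < u) (hs : 0 ≤ s) :
    Real.exp (-(s / u * tr u x)) ≤ 1 + s / u * (-x) + (Real.exp s - 1) / u ^ 2 * x ^ 2 := by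
  have := exp_tr_le u s (-x) hu hs
  rw [tr_neg] at this
  rw [neg_sq] at this
  rw [show -(s / u * tr u x) = s / u * -tr u x by ring]
  exact this

variable {Ω : Type u} [MeasurableSpace Ω] {P : Measure Ω} {n : ℕ}

theorem abs_tr_le (u x : ℝ) (hu : 0 ≤ u) : |tr u x| ≤ u := by
  unfold tr
  split
  · assumption
  · simpa using hu

theorem integrable_of_bdd [IsProbabilityMeasure P] {f : Ω → ℝ} (hf : Measurable f) (C : ℝ)
    (h : ∀ ω, |f ω| ≤ C) : Integrable f P :=
  Integrable.of_bound hf.aestronglyMeasurable C (Filter.Eventually.of_forall h)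

/-- one variable -/
theorem mgf_one [IsProbabilityMeasure P] {a : Ω → ℝ} (hm : Measurable a) (K : ℝ)
    (hK : ∀ ω, |a ω| ≤ K) (h0 : ∫ ω, a ω ∂P = 0) (v : ℝ) (hv : ∫ ω, (a ω) ^ 2 ∂P ≤ v)
    (u s : ℝ) (hu : 0 < u) (hs : 0 ≤ s) (σ : ℝ) (hσ : σ = 1 ∨ σ = -1) :
    ∫ ω, Real.exp (σ * (s / u) * tr u (a ω)) ∂P ≤ Real.exp (v * (Real.exp s - 1) / u ^ 2) := by
  have hes : s + 1 ≤ Real.exp s := Real.add_one_le_exp s
  have hai : Integrable a P := integrable_of_bdd hm K hK
  have ha2 : Integrable (fun ω => (a ω) ^ 2) P := by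
    refine integrable_of_bdd (hm.pow_const 2) (K ^ 2) (fun ω => ?_)
    rw [abs_pow]
    exact pow_le_pow_left₀ (abs_nonneg _) (hK ω) 2
  have hpt : ∀ ω, Real.exp (σ * (s / u) * tr u (a ω)) ≤
      1 + σ * (s / u) * a ω + (Real.exp s - 1) / u ^ 2 * (a ω) ^ 2 := by
    intro ω
    rcases hσ with rfl | rfl
    · have := exp_tr_le u s (a ω) hu hs
      simpa using this
    · have := exp_neg_tr_le u s (a ω) hu hs
      have e : -1 * (s / u) * tr u (a ω) = -(s / u * tr u (a ω)) := by ring
      rw [e]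
      refine this.trans (le_of_eq ?_)
      ring
  have hRi : Integrable (fun ω => 1 + σ * (s / u) * a ω +
      (Real.exp s - 1) / u ^ 2 * (a ω) ^ 2) P :=
    ((integrable_const 1).add (hai.const_mul _)).add (ha2.const_mul _)
  have hLi : Integrable (fun ω => Real.exp (σ * (s / u) * tr u (a ω))) P := by
    refine integrable_of_bdd (((measurable_tr u).comp hm).const_mul _).exp
      (Real.exp (|σ * (s / u)| * u)) (fun ω => ?_)
    rw [abs_of_pos (Real.exp_pos _)]
    refine Real.exp_le_exp.2 ((le_abs_self _).trans ?_)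
    rw [abs_mul]
    exact mul_le_mul_of_nonneg_left (abs_tr_le _ _ hu.le) (abs_nonneg _)
  calc ∫ ω, Real.exp (σ * (s / u) * tr u (a ω)) ∂P
      ≤ ∫ ω, (1 + σ * (s / u) * a ω + (Real.exp s - 1) / u ^ 2 * (a ω) ^ 2) ∂P :=
        integral_mono hLi hRi hpt
    _ = 1 + (Real.exp s - 1) / u ^ 2 * ∫ ω, (a ω) ^ 2 ∂P := by
        have hI1 : Integrable (fun ω => 1 + σ * (s / u) * a ω) P :=
          (integrable_const 1).add (hai.const_mul _)
        rw [integral_add hI1 (ha2.const_mul _),
          integral_add (integrable_const 1) (hai.const_mul _), integral_const_mul,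
          integral_const_mul, h0]
        simp
    _ ≤ 1 + (Real.exp s - 1) / u ^ 2 * v := by
        have : 0 ≤ (Real.exp s - 1) / u ^ 2 := div_nonneg (by linarith) (by positivity)
        have := mul_le_mul_of_nonneg_left hv this
        linarith
    _ ≤ Real.exp (v * (Real.exp s - 1) / u ^ 2) := by
        have := Real.add_one_le_exp (v * (Real.exp s - 1) / u ^ 2)
        have e : (Real.exp s - 1) / u ^ 2 * v = v * (Real.exp s - 1) / u ^ 2 := by ring
        linarith

/-- the truncated sums -/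
theorem mgf_sum [IsProbabilityMeasure P] {a : Fin n → Ω → ℝ} (hm : ∀ i, Measurable (a i))
    (hind : iIndepFun a P) (K : ℝ)
    (hK : ∀ i ω, |a i ω| ≤ K) (h0 : ∀ i, ∫ ω, a i ω ∂P = 0) (v : ℝ)
    (hv : ∀ i, ∫ ω, (a i ω) ^ 2 ∂P ≤ v) (S : Finset (Fin n))
    (u s : ℝ) (hu : 0 < u) (hs : 0 ≤ s) (σ : ℝ) (hσ : σ = 1 ∨ σ = -1) :
    ∫ ω, Real.exp (σ * (s / u) * ∑ i ∈ S, tr u (a i ω)) ∂P ≤
      Real.exp (S.card * v * (Real.exp s - 1) / u ^ 2) := by
  classical
  have e1 : ∀ ω, Real.exp (σ * (s / u) * ∑ i ∈ S, tr u (a i ω)) =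
      ∏ i, (if i ∈ S then Real.exp (σ * (s / u) * tr u (a i ω)) else 1) := by
    intro ω
    rw [Finset.mul_sum, Real.exp_sum, ← Finset.prod_filter]
    refine Finset.prod_congr ?_ (fun _ _ => rfl)
    ext i; simp
  simp_rw [e1]
  have e2 := row_prod hm hind (fun i x => if i ∈ S then Real.exp (σ * (s / u) * tr u x) else 1)
    (fun i => by
      by_cases hi : i ∈ S
      · simp only [hi, if_true]
        exact ((measurable_tr u).const_mul _).exp
      · simp only [hi, if_false]
        exact measurable_const)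
  rw [e2]
  have e3 : ∀ i, ∫ ω, (if i ∈ S then Real.exp (σ * (s / u) * tr u (a i ω)) else 1) ∂P ≤
      if i ∈ S then Real.exp (v * (Real.exp s - 1) / u ^ 2) else 1 := by
    intro i
    by_cases hi : i ∈ S
    · simp only [hi, if_true]
      exact mgf_one (hm i) K (hK i) (h0 i) v (hv i) u s hu hs σ hσ
    · simp only [hi, if_false]
      simp
  calc ∏ i, ∫ ω, (if i ∈ S then Real.exp (σ * (s / u) * tr u (a i ω)) else 1) ∂P
      ≤ ∏ i, (if i ∈ S then Real.exp (v * (Real.exp s - 1) / u ^ 2) else 1) := by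
        refine Finset.prod_le_prod (fun i _ => integral_nonneg (fun ω => ?_)) (fun i _ => e3 i)
        by_cases hi : i ∈ S
        · simp only [hi, if_true]; exact (Real.exp_pos _).le
        · simp only [hi, if_false]; exact zero_le_one
    _ = Real.exp (S.card * v * (Real.exp s - 1) / u ^ 2) := by
        rw [← Finset.prod_filter, Finset.filter_mem_eq_inter, Finset.univ_inter,
          Finset.prod_const, ← Real.exp_nat_mul]
        congr 1
        ring

end Pool.Agent.W2helper1.NR
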