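import Pool.Agent.W2helper1.NR.C0

/-!
# Piece C1
-/

open MeasureTheory ProbabilityTheory

namespace Pool.Agent.W2helper1.NR

universe u

variable {Ω : Type u} [MeasurableSpace Ω] {P : Measure Ω} {n : ℕ}

/-- sign vector of a set -/
noncomputable def sg (T : Finset (Fin n)) (i : Fin n) : ℝ := by
  classical exact if i ∈ T then 1 else -1

theorem sg_or (T : Finset (Fin n)) (i : Fin n) : sg T i = 1 ∨ sg T i = -1 := by
  classical
  unfold sg
  split <;> simp

theorem sg_sq (T : Finset (Fin n)) (i : Fin n) : sg T i ^ 2 = 1 := by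
  rcases sg_or T i with h | h <;> rw [h] <;> norm_num

theorem abs_sg (T : Finset (Fin n)) (i : Fin n) : |sg T i| = 1 := by
  rcases sg_or T i with h | h <;> rw [h] <;> norm_num

/-- one set and one sign vector -/
theorem one_set [IsProbabilityMeasure P] {b : Fin n → Fin n → Ω → ℝ} {K R : ℝ}
    (H : Hyp P b K) (S T : Finset (Fin n)) (hS : S.Nonempty)
    (hR : 100000 * K ^ 2 * (1 + Real.log (n / S.card)) ≤ R) :
    P.real {ω | (∀ j, ∑ i ∈ S, (b i j ω) ^ 2 ≤ R) ∧
      352 * R * S.card < ∑ j, (∑ i ∈ S, sg T i * b i j ω) ^ 2} ≤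
    Real.exp (-(9 * (1 + Real.log (n / S.card)) * S.card)) := by
  classical
  have hk0 : 0 < S.card := hS.card_pos
  have hkn : S.card ≤ n := by simpa using S.card_le_univ
  have hn0 : 0 < n := by omega
  have hkR : (0:ℝ) < S.card := by exact_mod_cast hk0
  have hnR : (0:ℝ) < n := by exact_mod_cast hn0
  have hknR : (S.card : ℝ) ≤ n := by exact_mod_cast hkn
  have hlog : 0 ≤ Real.log (n / S.card) := Real.log_nonneg (by rw [le_div_iff₀ hkR]; linarith)
  set lam : ℝ := 1 + Real.log (n / S.card) with hlam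
  have hl : 1 ≤ lam := by linarith
  have hK := H.K1
  have hK2 : 1 ≤ K ^ 2 := by nlinarith
  have hR1 : 100000 ≤ R := by nlinarith
  have hR0 : 0 < R := by linarith
  set μ : ℝ := lam / (32 * R) with hμ
  have hmu0 : 0 ≤ μ := by positivity
  let g : Fin n → (Fin n → ℝ) → ℝ := fun _ y =>
    Real.exp (μ * (if ∑ i ∈ S, (sg T i * y i) ^ 2 ≤ R then (∑ i ∈ S, sg T i * y i) ^ 2 else 0))
  have hg : ∀ j, Measurable (g j) := by
    intro j
    refine Measurable.exp (Measurable.const_mul ?_ _)
    refine Measurable.ite (measurableSet_le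
      (Finset.measurable_fun_sum _ (fun i _ => ((measurable_pi_apply i).const_mul _).pow_const 2))
      measurable_const) ?_ measurable_const
    exact (Finset.measurable_fun_sum _ (fun i _ => (measurable_pi_apply i).const_mul _)).pow_const 2
  have hcol : ∀ j, Measurable (fun ω => g j (fun i => b i j ω)) := fun j =>
    (hg j).comp (measurable_pi_lambda _ (fun i => H.meas i j))
  have hgpos : ∀ j ω, 0 < g j (fun i => b i j ω) := fun j ω => Real.exp_pos _
  have hgle : ∀ j ω, g j (fun i => b i j ω) ≤ Real.exp (μ * (S.card * K) ^ 2) := by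
    intro j ω
    refine Real.exp_le_exp.2 (mul_le_mul_of_nonneg_left ?_ hmu0)
    split
    · rw [← sq_abs]
      refine pow_le_pow_left₀ (abs_nonneg _) ?_ 2
      calc |∑ i ∈ S, sg T i * b i j ω| ≤ ∑ i ∈ S, |sg T i * b i j ω| :=
            Finset.abs_sum_le_sum_abs _ _
        _ ≤ ∑ i ∈ S, K := Finset.sum_le_sum (fun i _ => by
            rw [abs_mul, abs_sg, one_mul]; exact H.bdd i j ω)
        _ = S.card * K := by rw [Finset.sum_const, nsmul_eq_mul]
    · positivity
  -- expectation of one column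
  have hone : ∀ j, ∫ ω, g j (fun i => b i j ω) ∂P ≤ 1 + 2 * (S.card / n) := by
    intro j
    have hind : iIndepFun (fun i ω => sg T i * b i j ω) P :=
      (colInd H.ind j).comp (fun i x => sg T i * x) (fun i => measurable_id.const_mul _)
    have h := pieceC0 Ω P n (fun i ω => sg T i * b i j ω) S K R hS hK
      (fun i => (H.meas i j).const_mul _) hind
      (fun i => by rw [integral_const_mul, H.mean i j, mul_zero])
      (fun i => by
        simp only [mul_pow, sg_sq, one_mul]
        exact H.var i j)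
      (fun i ω => by rw [abs_mul, abs_sg, one_mul]; exact H.bdd i j ω) hR
    exact h
  have hprod : ∫ ω, ∏ j, g j (fun i => b i j ω) ∂P ≤ Real.exp (2 * S.card) := by
    rw [col_prod H.meas H.ind g hg]
    calc ∏ j, ∫ ω, g j (fun i => b i j ω) ∂P ≤ ∏ j : Fin n, (1 + 2 * ((S.card : ℝ) / n)) :=
          Finset.prod_le_prod (fun j _ => integral_nonneg (fun ω => (hgpos j ω).le))
            (fun j _ => hone j)
      _ = (1 + 2 * ((S.card : ℝ) / n)) ^ n := by
          rw [Finset.prod_const, Finset.card_univ, Fintype.card_fin]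
      _ ≤ (Real.exp (2 * ((S.card : ℝ) / n))) ^ n := by
          refine pow_le_pow_left₀ (by positivity) ?_ n
          have := Real.add_one_le_exp (2 * ((S.card : ℝ) / n))
          linarith
      _ = Real.exp (2 * S.card) := by
          rw [← Real.exp_nat_mul]; congr 1; field_simp
  let f : Ω → ℝ := fun ω => Real.exp (-(11 * lam * S.card)) * ∏ j, g j (fun i => b i j ω)
  have hfint : Integrable f P := by
    refine Integrable.const_mul ?_ _
    refine integrable_of_bdd (Finset.measurable_fun_prod _ (fun j _ => hcol j))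
      (∏ j : Fin n, Real.exp (μ * (S.card * K) ^ 2)) (fun ω => ?_)
    rw [abs_of_nonneg (Finset.prod_nonneg (fun j _ => (hgpos j ω).le))]
    exact Finset.prod_le_prod (fun j _ => (hgpos j ω).le) (fun j _ => hgle j ω)
  have hsub : {ω | (∀ j, ∑ i ∈ S, (b i j ω) ^ 2 ≤ R) ∧
      352 * R * S.card < ∑ j, (∑ i ∈ S, sg T i * b i j ω) ^ 2} ⊆ {ω | 1 ≤ f ω} := by
    rintro ω ⟨h1, h2⟩
    show 1 ≤ f ω
    have h3 : ∀ j, g j (fun i => b i j ω) =
        Real.exp (μ * (∑ i ∈ S, sg T i * b i j ω) ^ 2) := by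
      intro j
      have : ∑ i ∈ S, (sg T i * b i j ω) ^ 2 ≤ R := by
        simp only [mul_pow, sg_sq, one_mul]; exact h1 j
      simp only [g]
      rw [if_pos this]
    show 1 ≤ Real.exp (-(11 * lam * S.card)) * ∏ j, g j (fun i => b i j ω)
    simp only [h3]
    rw [← Real.exp_sum, ← Real.exp_add]
    refine Real.one_le_exp ?_
    rw [← Finset.mul_sum]
    have h4 : μ * (352 * R * S.card) ≤ μ * ∑ j, (∑ i ∈ S, sg T i * b i j ω) ^ 2 :=
      mul_le_mul_of_nonneg_left h2.le hmu0
    have h5 : μ * (352 * R * S.card) = 11 * lam * S.card := by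
      rw [hμ]; field_simp; ring
    linarith
  calc P.real {ω | (∀ j, ∑ i ∈ S, (b i j ω) ^ 2 ≤ R) ∧
        352 * R * S.card < ∑ j, (∑ i ∈ S, sg T i * b i j ω) ^ 2}
      ≤ P.real {ω | 1 ≤ f ω} := measureReal_mono hsub
    _ ≤ ∫ ω, f ω ∂P := by
        have := mul_meas_ge_le_integral_of_nonneg (μ := P) (f := f)
          (Filter.Eventually.of_forall (fun ω => mul_nonneg (Real.exp_pos _).le
            (Finset.prod_nonneg (fun j _ => (hgpos j ω).le)))) hfint 1
        rwa [one_mul] at this
    _ = Real.exp (-(11 * lam * S.card)) * ∫ ω, ∏ j, g j (fun i => b i j ω) ∂P :=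
        integral_const_mul _ _
    _ ≤ Real.exp (-(11 * lam * S.card)) * Real.exp (2 * S.card) :=
        mul_le_mul_of_nonneg_left hprod (Real.exp_pos _).le
    _ ≤ Real.exp (-(9 * lam * S.card)) := by
        rw [← Real.exp_add]
        refine Real.exp_le_exp.2 ?_
        nlinarith

/-- `C(n,k) ≤ (en/k)^k` -/
theorem choose_le_exp (n k : ℕ) (hk : 0 < k) (hkn : k ≤ n) :
    ((n.choose k : ℕ) : ℝ) ≤ Real.exp ((1 + Real.log (n / k)) * k) := by
  have hkR : (0:ℝ) < k := by exact_mod_cast hk
  have hnR : (0:ℝ) < n := by exact_mod_cast (lt_of_lt_of_le hk hkn)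
  have h1 : ((n.choose k : ℕ) : ℝ) ≤ (n : ℝ) ^ k / (Nat.factorial k : ℝ) :=
    Nat.choose_le_pow_div k n
  have h2 : (k : ℝ) ^ k / (Nat.factorial k : ℝ) ≤ Real.exp k :=
    Real.pow_div_factorial_le_exp (k:ℝ) hkR.le k
  have hf : (0:ℝ) < (Nat.factorial k : ℝ) := by positivity
  have h3 : Real.exp ((1 + Real.log (n / k)) * k) = Real.exp k * (n / k : ℝ) ^ k := by
    rw [add_mul, one_mul, Real.exp_add, mul_comm (Real.log _), Real.exp_nat_mul,
      Real.exp_log (by positivity)]
  rw [h3]
  refine h1.trans ?_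
  calc (n : ℝ) ^ k / (Nat.factorial k : ℝ) = (k : ℝ) ^ k / (Nat.factorial k : ℝ) * (n / k : ℝ) ^ k := by
        rw [div_pow]; field_simp
    _ ≤ Real.exp k * (n / k : ℝ) ^ k := mul_le_mul_of_nonneg_right h2 (by positivity)

theorem pieceC1 : PieceC1.{u} := by
  intro Ω _ P _ n b K ε R H hε hε6 hR
  classical
  have hK := H.K1
  -- the scale `L`
  have hL6 : Real.log 6 ≤ Real.log (1 / ε) := by
    refine Real.log_le_log (by norm_num) ?_
    rw [le_div_iff₀ hε]; linarith
  have hlog6 : 1 + Real.log 2 ≤ Real.log 6 := by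
    have h3 : Real.log 6 = Real.log 3 + Real.log 2 := by
      rw [← Real.log_mul (by norm_num) (by norm_num)]; norm_num
    have h4 : 1 ≤ Real.log 3 := by
      rw [Real.le_log_iff_exp_le (by norm_num)]
      have := Real.exp_one_lt_d9
      linarith
    linarith
  have hlamL : ∀ k : ℕ, 0 < k → ε * n / 2 < k → k ≤ n →
      1 + Real.log (n / k) ≤ 2 * Real.log (1 / ε) := by
    intro k hk hk1 hkn
    have hkR : (0:ℝ) < k := by exact_mod_cast hk
    have hnR : (0:ℝ) < n := by exact_mod_cast (lt_of_lt_of_le hk hkn)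
    have h1 : Real.log (n / k) ≤ Real.log (2 * (1 / ε)) := by
      refine Real.log_le_log (by positivity) ?_
      rw [div_le_iff₀ hkR]
      have : 2 * (1 / ε) * k = 2 * k / ε := by ring
      rw [this, le_div_iff₀ hε]
      linarith
    rw [Real.log_mul (by norm_num) (by positivity)] at h1
    linarith
  set g : ℕ → ℝ := fun k => if ε * n / 2 < k then
    2 ^ k * Real.exp (-(9 * (1 + Real.log (n / k)) * k)) else 0 with hg
  -- the union bound
  have hsub : {ω | ∃ S : Finset (Fin n), ε * n / 2 < S.card ∧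
      (∀ j, ∑ i ∈ S, (b i j ω) ^ 2 ≤ R) ∧
      ¬ SgnBd (fun i j => b i j ω) S (352 * R * S.card)} ⊆
      ⋃ S ∈ (Finset.univ : Finset (Finset (Fin n))).filter (fun S => ε * n / 2 < S.card),
        ⋃ T ∈ S.powerset, {ω | (∀ j, ∑ i ∈ S, (b i j ω) ^ 2 ≤ R) ∧
      352 * R * S.card < ∑ j, (∑ i ∈ S, sg T i * b i j ω) ^ 2} := by
    rintro ω ⟨S, hS1, hS2, hS3⟩
    unfold SgnBd at hS3
    push Not at hS3
    obtain ⟨x, hx1, hx2⟩ := hS3
    simp only [Set.mem_iUnion]
    refine ⟨S, by simp [hS1], S.filter (fun i => x i = 1), by simp [Finset.filter_subset], hS2, ?_⟩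
    refine lt_of_lt_of_eq hx2 ?_
    refine Finset.sum_congr rfl (fun j _ => ?_)
    congr 1
    refine Finset.sum_congr rfl (fun i hi => ?_)
    congr 1
    unfold sg
    rcases hx1 i with h | h
    · rw [if_pos (Finset.mem_filter.2 ⟨hi, h⟩), h]
    · rw [if_neg (fun hcon => by
        have := (Finset.mem_filter.1 hcon).2
        rw [h] at this; norm_num at this), h]
  refine (measureReal_mono hsub (measure_ne_top _ _)).trans ?_
  refine (measureReal_biUnion_finset_le _ _).trans ?_
  have hstep : ∀ S ∈ (Finset.univ : Finset (Finset (Fin n))).filter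
      (fun S => ε * n / 2 < S.card),
      P.real (⋃ T ∈ S.powerset, {ω | (∀ j, ∑ i ∈ S, (b i j ω) ^ 2 ≤ R) ∧
      352 * R * S.card < ∑ j, (∑ i ∈ S, sg T i * b i j ω) ^ 2}) ≤ g S.card := by
    intro S hS
    rw [Finset.mem_filter] at hS
    have hS1 := hS.2
    have hSpos : 0 < S.card := by
      have h0 : (0:ℝ) ≤ ε * n / 2 := by positivity
      exact_mod_cast lt_of_le_of_lt h0 hS1
    have hSn : S.card ≤ n := by simpa using S.card_le_univ
    have hRS : 100000 * K ^ 2 * (1 + Real.log (n / S.card)) ≤ R := by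
      have h1 := hlamL S.card hSpos hS1 hSn
      have h2 : 100000 * K ^ 2 * (1 + Real.log (n / S.card)) ≤
          100000 * K ^ 2 * (2 * Real.log (1 / ε)) :=
        mul_le_mul_of_nonneg_left h1 (by positivity)
      linarith
    refine (measureReal_biUnion_finset_le _ _).trans ?_
    refine (Finset.sum_le_sum (fun T _ => one_set H S T (Finset.card_pos.1 hSpos) hRS)).trans ?_
    rw [Finset.sum_const, Finset.card_powerset, nsmul_eq_mul]
    simp only [hg]
    rw [if_pos hS1]
    push_cast
    exact le_refl _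
  refine (Finset.sum_le_sum hstep).trans ?_
  have hgnn : ∀ k, 0 ≤ g k := by
    intro k; simp only [hg]; split
    · positivity
    · exact le_refl _
  refine (Finset.sum_le_sum_of_subset_of_nonneg (Finset.filter_subset _ _)
    (fun S _ _ => hgnn _)).trans ?_
  have hps : (Finset.univ : Finset (Finset (Fin n))) = (Finset.univ : Finset (Fin n)).powerset := by
    ext S; simp
  rw [hps, Finset.sum_powerset_apply_card g, Finset.card_univ, Fintype.card_fin]
  have hterm : ∀ k ∈ Finset.range (n + 1), (n.choose k) • g k ≤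
      Real.exp (-(ε * n)) * ((1 / 2) * (1 / 2) ^ k) := by
    intro k hk
    rw [Finset.mem_range] at hk
    have hkn : k ≤ n := by omega
    rw [nsmul_eq_mul]
    simp only [hg]
    split
    · rename_i hk1
      have hkpos : 0 < k := by
        have h0 : (0:ℝ) ≤ ε * n / 2 := by positivity
        exact_mod_cast lt_of_le_of_lt h0 hk1
      have hkR : (0:ℝ) < k := by exact_mod_cast hkpos
      have hk1R : (1:ℝ) ≤ k := by exact_mod_cast hkpos
      have hnR : (k:ℝ) ≤ n := by exact_mod_cast hkn
      have hlog : 0 ≤ Real.log (n / k) := Real.log_nonneg (by rw [le_div_iff₀ hkR]; linarith)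
      set lam : ℝ := 1 + Real.log (n / k) with hlam
      have hl : 1 ≤ lam := by linarith
      have h1 : ((n.choose k : ℕ) : ℝ) ≤ Real.exp (lam * k) := choose_le_exp n k hkpos hkn
      have h2 : (2:ℝ) ^ k ≤ Real.exp k := by
        have h3 : (2:ℝ) ≤ Real.exp 1 := by
          have := Real.add_one_le_exp (1:ℝ); linarith
        calc (2:ℝ) ^ k ≤ Real.exp 1 ^ k := pow_le_pow_left₀ (by norm_num) h3 k
          _ = Real.exp k := by rw [← Real.exp_nat_mul, mul_one]
      have h5 : Real.exp (-(k:ℝ) - 1) ≤ (1 / 2) * (1 / 2) ^ k := by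
        have h6 : Real.exp (-1) ≤ 1 / 2 := by
          rw [Real.exp_neg, inv_le_comm₀ (Real.exp_pos _) (by norm_num)]
          have := Real.add_one_le_exp (1:ℝ)
          norm_num at this ⊢
          linarith
        have h7 : Real.exp (-(k:ℝ) - 1) = Real.exp (-1) * Real.exp (-1) ^ k := by
          rw [← Real.exp_nat_mul, ← Real.exp_add]; congr 1; ring
        rw [h7]
        exact mul_le_mul h6 (pow_le_pow_left₀ (Real.exp_pos _).le h6 k)
          (pow_nonneg (Real.exp_pos _).le _) (by norm_num)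
      calc ((n.choose k : ℕ) : ℝ) * (2 ^ k * Real.exp (-(9 * lam * k)))
          ≤ Real.exp (lam * k) * (Real.exp k * Real.exp (-(9 * lam * k))) := by
            refine mul_le_mul h1 (mul_le_mul_of_nonneg_right h2 (Real.exp_pos _).le)
              (by positivity) (Real.exp_pos _).le
        _ = Real.exp (lam * k + (k + -(9 * lam * k))) := by
            rw [Real.exp_add, Real.exp_add]
        _ ≤ Real.exp (-(ε * n) + (-(k:ℝ) - 1)) := by
            refine Real.exp_le_exp.2 ?_
            nlinarith [mul_le_mul_of_nonneg_right hl hkR.le]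
        _ = Real.exp (-(ε * n)) * Real.exp (-(k:ℝ) - 1) := Real.exp_add _ _
        _ ≤ _ := mul_le_mul_of_nonneg_left h5 (Real.exp_pos _).le
    · rw [mul_zero]
      positivity
  refine (Finset.sum_le_sum hterm).trans ?_
  rw [← Finset.mul_sum, ← Finset.mul_sum]
  have h5 := sum_geometric_two_le (n + 1)
  have h6 := Real.exp_pos (-(ε * n))
  nlinarith

end Pool.Agent.W2helper1.NR
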