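import Pool.Agent.W2helper1.NR.C1

/-!
# MP_d89a53_pr : the final assembly
-/

open MeasureTheory ProbabilityTheory

namespace Pool.Agent.W2helper1.NR

universe u

/-- The matrix `A` with the entries in `I × J` replaced by `0`. -/
def zeroed {n : ℕ} (A : Matrix (Fin n) (Fin n) ℝ) (I J : Finset (Fin n)) :
    Matrix (Fin n) (Fin n) ℝ :=
  fun i j => if i ∈ I ∧ j ∈ J then 0 else A i j

/-- The operator norm on Euclidean space. -/
noncomputable def opNorm {n : ℕ} (M : Matrix (Fin n) (Fin n) ℝ) : ℝ :=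
  ‖Matrix.toEuclideanCLM (n := Fin n) (𝕜 := ℝ) M‖

theorem opNorm_le {n : ℕ} (M : Matrix (Fin n) (Fin n) ℝ) (C : ℝ) (hC : 0 ≤ C)
    (h : ∀ y : Fin n → ℝ, ∑ i, (∑ j, M i j * y j) ^ 2 ≤ C ^ 2 * ∑ j, y j ^ 2) :
    opNorm M ≤ C := by
  refine ContinuousLinearMap.opNorm_le_bound _ hC (fun x => ?_)
  have h1 := h (fun j => x j)
  have h2 : ‖Matrix.toEuclideanCLM (n := Fin n) (𝕜 := ℝ) M x‖ ^ 2 =
      ∑ i, (∑ j, M i j * x j) ^ 2 := by
    rw [EuclideanSpace.norm_sq_eq]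
    refine Finset.sum_congr rfl (fun i _ => ?_)
    rw [Real.norm_eq_abs, sq_abs]
    rfl
  have h3 : ‖x‖ ^ 2 = ∑ j, x j ^ 2 := by
    rw [EuclideanSpace.norm_sq_eq]
    refine Finset.sum_congr rfl (fun i _ => ?_)
    rw [Real.norm_eq_abs, sq_abs]
  have h4 : ‖Matrix.toEuclideanCLM (n := Fin n) (𝕜 := ℝ) M x‖ ^ 2 ≤ (C * ‖x‖) ^ 2 := by
    rw [h2, mul_pow, h3]; exact h1
  exact le_of_sq_le_sq h4 (by positivity)

theorem rowBd_dual {n : ℕ} (b : Fin n → Fin n → ℝ) (S : Finset (Fin n)) (Λ : ℝ) (hΛ : 0 ≤ Λ)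
    (h : RowBd b S Λ) (y : Fin n → ℝ) :
    ∑ i ∈ S, (∑ j, b i j * y j) ^ 2 ≤ Λ * ∑ j, y j ^ 2 := by
  set v : Fin n → ℝ := fun i => ∑ j, b i j * y j with hv
  have hY : 0 ≤ ∑ j, y j ^ 2 := Finset.sum_nonneg (fun _ _ => sq_nonneg _)
  have hV : 0 ≤ ∑ i ∈ S, v i ^ 2 := Finset.sum_nonneg (fun _ _ => sq_nonneg _)
  have h1 : ∑ i ∈ S, v i ^ 2 = ∑ j, y j * (∑ i ∈ S, v i * b i j) := by
    simp_rw [Finset.mul_sum]
    rw [Finset.sum_comm]
    refine Finset.sum_congr rfl (fun i _ => ?_)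
    rw [pow_two]
    conv_lhs => rw [hv]
    simp only
    rw [Finset.mul_sum]
    refine Finset.sum_congr rfl (fun j _ => ?_)
    ring
  have h2 : (∑ i ∈ S, v i ^ 2) ^ 2 ≤ (∑ j, y j ^ 2) * (Λ * ∑ i ∈ S, v i ^ 2) := by
    calc (∑ i ∈ S, v i ^ 2) ^ 2 = (∑ j, y j * (∑ i ∈ S, v i * b i j)) ^ 2 := by rw [h1]
      _ ≤ (∑ j, y j ^ 2) * (∑ j, (∑ i ∈ S, v i * b i j) ^ 2) :=
          Finset.sum_mul_sq_le_sq_mul_sq _ _ _
      _ ≤ (∑ j, y j ^ 2) * (Λ * ∑ i ∈ S, v i ^ 2) := mul_le_mul_of_nonneg_left (h v) hY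
  rcases hV.eq_or_lt with h0 | h0
  · show ∑ i ∈ S, v i ^ 2 ≤ _
    rw [← h0]; positivity
  · show ∑ i ∈ S, v i ^ 2 ≤ _
    have h3 : (∑ i ∈ S, v i ^ 2) * (∑ i ∈ S, v i ^ 2) ≤ (Λ * ∑ j, y j ^ 2) * (∑ i ∈ S, v i ^ 2) := by
      nlinarith
    exact le_of_mul_le_mul_right h3 h0

theorem combine {n : ℕ} (b : Fin n → Fin n → ℝ) (I J : Finset (Fin n)) (Λ : ℝ) (hΛ : 0 ≤ Λ)
    (h1 : RowBd b Iᶜ Λ) (h2 : RowBd (fun j i => b i j) Jᶜ Λ) (y : Fin n → ℝ) :
    ∑ i, (∑ j, zeroed b I J i j * y j) ^ 2 ≤ (2 * Λ) * ∑ j, y j ^ 2 := by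
  classical
  rw [← Finset.sum_add_sum_compl I]
  have e1 : ∑ i ∈ Iᶜ, (∑ j, zeroed b I J i j * y j) ^ 2 ≤ Λ * ∑ j, y j ^ 2 := by
    refine le_trans (le_of_eq ?_) (rowBd_dual b Iᶜ Λ hΛ h1 y)
    refine Finset.sum_congr rfl (fun i hi => ?_)
    have hi' : i ∉ I := by simpa using hi
    simp [zeroed, hi']
  have e2 : ∑ i ∈ I, (∑ j, zeroed b I J i j * y j) ^ 2 ≤ Λ * ∑ j, y j ^ 2 := by
    have h3 := h2 y
    have h4 : ∑ i ∈ I, (∑ j, zeroed b I J i j * y j) ^ 2 ≤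
        ∑ i, (∑ j ∈ Jᶜ, y j * b i j) ^ 2 := by
      calc ∑ i ∈ I, (∑ j, zeroed b I J i j * y j) ^ 2 =
          ∑ i ∈ I, (∑ j ∈ Jᶜ, y j * b i j) ^ 2 := by
            refine Finset.sum_congr rfl (fun i hi => ?_)
            congr 1
            rw [← Finset.sum_add_sum_compl J]
            have e3 : ∑ j ∈ J, zeroed b I J i j * y j = 0 :=
              Finset.sum_eq_zero (fun j hj => by simp [zeroed, hi, hj])
            rw [e3, zero_add]
            refine Finset.sum_congr rfl (fun j hj => ?_)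
            have hj' : j ∉ J := by simpa using hj
            simp [zeroed, hj', mul_comm]
        _ ≤ _ := Finset.sum_le_sum_of_subset_of_nonneg (Finset.subset_univ _)
            (fun _ _ _ => sq_nonneg _)
    have h5 : ∑ j ∈ Jᶜ, y j ^ 2 ≤ ∑ j, y j ^ 2 :=
      Finset.sum_le_sum_of_subset_of_nonneg (Finset.subset_univ _) (fun _ _ _ => sq_nonneg _)
    exact h4.trans (h3.trans (mul_le_mul_of_nonneg_left h5 hΛ))
  linarith

variable {Ω : Type u} [MeasurableSpace Ω] {P : Measure Ω} {n : ℕ}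

/-- the transposed matrix -/
theorem Hyp.symm {b : Fin n → Fin n → Ω → ℝ} {K : ℝ} (H : Hyp P b K) :
    Hyp P (fun j i => b i j) K where
  K1 := H.K1
  meas := fun i j => H.meas j i
  ind := by
    have := H.ind.precomp (g := fun p : Fin n × Fin n => (p.2, p.1)) (fun p q h => by
      simp only [Prod.mk.injEq] at h
      exact Prod.ext h.2 h.1)
    exact this
  mean := fun i j => H.mean j i
  var := fun i j => H.var j i
  bdd := fun i j ω => H.bdd j i ω

/-- row deletion -/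
theorem rowDel (hB : PieceB.{u}) (hD : PieceD) [IsProbabilityMeasure P]
    {b : Fin n → Fin n → Ω → ℝ} {K ε : ℝ} (H : Hyp P b K) (hε : 0 < ε) (hε6 : ε ≤ 1 / 6) :
    P.real {ω | ¬ ∃ I : Finset (Fin n), (I.card : ℝ) ≤ ε * n ∧
      RowBd (fun i j => b i j ω) Iᶜ
        (4 * Real.log (1 / ε) * 144 * 352 * (200000 * K ^ 2 * Real.log (1 / ε)))} ≤
      2 * Real.exp (-(ε * n)) := by
  have hL : 0 ≤ Real.log (1 / ε) := Real.log_nonneg (by rw [le_div_iff₀ hε]; linarith)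
  set R : ℝ := 200000 * K ^ 2 * Real.log (1 / ε) with hR
  have hR0 : 0 ≤ R := by positivity
  have h1 := hB Ω P n b K ε R H hε hε6 (le_of_eq hR.symm)
  have h2 := pieceC1 Ω P n b K ε R H hε hε6 (le_of_eq hR.symm)
  have hsub : {ω | ¬ ∃ I : Finset (Fin n), (I.card : ℝ) ≤ ε * n ∧
      RowBd (fun i j => b i j ω) Iᶜ (4 * Real.log (1 / ε) * 144 * 352 * R)} ⊆
      {ω | ¬ ∃ I : Finset (Fin n), (I.card : ℝ) ≤ ε * n / 2 ∧
        ∀ j, ∑ i ∈ Iᶜ, (b i j ω) ^ 2 ≤ R} ∪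
      {ω | ∃ S : Finset (Fin n), ε * n / 2 < S.card ∧ (∀ j, ∑ i ∈ S, (b i j ω) ^ 2 ≤ R) ∧
        ¬ SgnBd (fun i j => b i j ω) S (352 * R * S.card)} := by
    intro ω hω
    by_contra hcon
    rw [Set.mem_union, not_or] at hcon
    apply hω
    refine hD n (fun i j => b i j ω) ε R hε hε6 hR0 (not_not.1 hcon.1) (fun S hS1 hS2 => ?_)
    by_contra hS3
    exact hcon.2 ⟨S, hS1, hS2, hS3⟩
  calc _ ≤ P.real _ := measureReal_mono hsub (measure_ne_top _ _)
    _ ≤ _ := measureReal_union_le _ _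
    _ ≤ 2 * Real.exp (-(ε * n)) := by linarith

/-- The event that a submatrix can be zeroed. -/
def good (A : Fin n → Fin n → Ω → ℝ) (ε c : ℝ) : Set Ω :=
  {ω | ∃ I J : Finset (Fin n), (I.card : ℝ) ≤ ε * n ∧ (J.card : ℝ) ≤ ε * n ∧
    opNorm (zeroed (fun i j => A i j ω) I J) ≤ c}

theorem measurableSet_good (A : Fin n → Fin n → Ω → ℝ) (hA : ∀ i j, Measurable (A i j))
    (ε c : ℝ) : MeasurableSet (good A ε c) := by
  have hopc : Continuous (fun M : Fin n → Fin n → ℝ => opNorm (fun i j => M i j)) := by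
    have h1 : Continuous (fun M : Fin n → Fin n → ℝ =>
        (Matrix.toEuclideanCLM (n := Fin n) (𝕜 := ℝ) (fun i j => M i j) :
          EuclideanSpace ℝ (Fin n) →L[ℝ] EuclideanSpace ℝ (Fin n))) := by
      let f : (Fin n → Fin n → ℝ) →ₗ[ℝ]
          (EuclideanSpace ℝ (Fin n) →L[ℝ] EuclideanSpace ℝ (Fin n)) :=
        { toFun := fun M => Matrix.toEuclideanCLM (n := Fin n) (𝕜 := ℝ) (fun i j => M i j)
          map_add' := fun M N => map_add (Matrix.toEuclideanCLM (n := Fin n) (𝕜 := ℝ)) _ _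
          map_smul' := fun r M => map_smul (Matrix.toEuclideanCLM (n := Fin n) (𝕜 := ℝ)) _ _ }
      exact f.continuous_of_finiteDimensional
    exact h1.norm
  have h2 : good A ε c = ⋃ I : Finset (Fin n), ⋃ J : Finset (Fin n),
      {ω | ((I.card : ℝ) ≤ ε * n ∧ (J.card : ℝ) ≤ ε * n) ∧
        opNorm (zeroed (fun i j => A i j ω) I J) ≤ c} := by
    ext ω
    simp only [good, Set.mem_ofPred_eq, Set.mem_iUnion, and_assoc]
  rw [h2]
  refine MeasurableSet.iUnion (fun I => MeasurableSet.iUnion (fun J => ?_))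
  refine MeasurableSet.inter (MeasurableSet.const _) ?_
  have h3 : Measurable (fun ω => (fun i j => zeroed (fun i j => A i j ω) I J i j :
      Fin n → Fin n → ℝ)) := by
    refine measurable_pi_lambda _ (fun i => measurable_pi_lambda _ (fun j => ?_))
    unfold zeroed
    by_cases h : i ∈ I ∧ j ∈ J
    · simp only [h, and_self, if_true]; exact measurable_const
    · simp only [h, if_false]; exact hA i j
  exact measurableSet_le (hopc.measurable.comp h3) measurable_const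

theorem main (hB : PieceB.{u}) (hD : PieceD) [IsProbabilityMeasure P] (K ε : ℝ) (hK : 1 ≤ K)
    (hε : 0 < ε) (hε6 : ε ≤ 1 / 6) (A : Fin n → Fin n → Ω → ℝ)
    (hA : ∀ i j, Measurable (A i j))
    (hind : iIndepFun (fun p : Fin n × Fin n => A p.1 p.2) P)
    (hmean : ∀ i j, ∫ ω, A i j ω ∂P = 0)
    (hvar : ∀ i j, ∫ ω, (A i j ω) ^ 2 ∂P ≤ 1)
    (hbdd : ∀ i j, ∀ᵐ ω ∂P, |A i j ω| ≤ K * √n) :
    MeasurableSet (good A ε (300000 * K * Real.log (1 / ε) * √n)) ∧
    1 - 4 * Real.exp (-(ε * n)) ≤ P.real (good A ε (300000 * K * Real.log (1 / ε) * √n)) := by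
  refine ⟨measurableSet_good A hA _ _, ?_⟩
  have hL : 0 ≤ Real.log (1 / ε) := Real.log_nonneg (by rw [le_div_iff₀ hε]; linarith)
  have hK0 : 0 < K := by linarith
  set G := good A ε (300000 * K * Real.log (1 / ε) * √n) with hG
  have hGm : MeasurableSet G := measurableSet_good A hA _ _
  suffices hbad : P.real Gᶜ ≤ 4 * Real.exp (-(ε * n)) by
    have := probReal_compl_eq_one_sub (μ := P) hGm
    linarith
  rcases Nat.eq_zero_or_pos n with hn | hn
  · subst hn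
    have : Gᶜ = ∅ := by
      rw [Set.compl_empty_iff, Set.eq_univ_iff_forall]
      intro ω
      refine ⟨∅, ∅, by simp, by simp, ?_⟩
      refine opNorm_le _ _ (by positivity) (fun y => ?_)
      simp
    rw [this]
    simp only [measureReal_empty]
    positivity
  have hnR : (0:ℝ) < n := by exact_mod_cast hn
  have hsn : 0 < √(n:ℝ) := Real.sqrt_pos.2 hnR
  have hsn2 : √(n:ℝ) ^ 2 = n := Real.sq_sqrt hnR.le
  -- rescaled and truncated entries
  let φ : ℝ → ℝ := fun x => if |x| ≤ K * √n then x / √n else 0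
  have hφ : Measurable φ := Measurable.ite (measurableSet_le measurable_abs measurable_const)
    (measurable_id.div_const _) measurable_const
  let b : Fin n → Fin n → Ω → ℝ := fun i j ω => φ (A i j ω)
  have hae : ∀ i j, ∀ᵐ ω ∂P, b i j ω = A i j ω / √n := by
    intro i j
    filter_upwards [hbdd i j] with ω hω
    show φ (A i j ω) = _
    simp only [φ]
    rw [if_pos hω]
  have H : Hyp P b K := by
    refine ⟨hK, fun i j => hφ.comp (hA i j), ?_, fun i j => ?_, fun i j => ?_, fun i j ω => ?_⟩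
    · exact hind.comp (fun _ => φ) (fun _ => hφ)
    · rw [integral_congr_ae (hae i j), integral_div, hmean i j, zero_div]
    · have h1 : (fun ω => (b i j ω) ^ 2) =ᵐ[P] fun ω => (A i j ω) ^ 2 / n := by
        filter_upwards [hae i j] with ω hω
        rw [hω, div_pow, hsn2]
      rw [integral_congr_ae h1, integral_div]
      exact div_le_div_of_nonneg_right (hvar i j) hnR.le
    · show |φ (A i j ω)| ≤ K
      simp only [φ]
      split
      · rename_i h
        rw [abs_div, abs_of_pos hsn, div_le_iff₀ hsn]; exact h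
      · simpa using hK0.le
  have hr := rowDel hB hD H hε hε6
  have hc := rowDel hB hD H.symm hε hε6
  set Λ : ℝ := 4 * Real.log (1 / ε) * 144 * 352 * (200000 * K ^ 2 * Real.log (1 / ε)) with hΛ
  have hΛ0 : 0 ≤ Λ := by positivity
  have hsub : Gᶜ ⊆ ({ω | ¬ ∃ I : Finset (Fin n), (I.card : ℝ) ≤ ε * n ∧
      RowBd (fun i j => b i j ω) Iᶜ Λ} ∪ {ω | ¬ ∃ J : Finset (Fin n), (J.card : ℝ) ≤ ε * n ∧
      RowBd (fun j i => b i j ω) Jᶜ Λ}) ∪ {ω | ¬ ∀ i j, b i j ω = A i j ω / √n} := by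
    intro ω hω
    by_contra hcon
    simp only [Set.mem_union, Set.mem_ofPred_eq, not_or, not_not] at hcon
    obtain ⟨⟨⟨I, hI1, hI2⟩, ⟨J, hJ1, hJ2⟩⟩, hab⟩ := hcon
    apply hω
    refine ⟨I, J, hI1, hJ1, ?_⟩
    refine opNorm_le _ _ (by positivity) (fun y => ?_)
    have h3 := combine (fun i j => b i j ω) I J Λ hΛ0 hI2 hJ2 y
    have h4 : ∀ i j, zeroed (fun i j => A i j ω) I J i j =
        √n * zeroed (fun i j => b i j ω) I J i j := by
      intro i j
      unfold zeroed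
      split
      · rw [mul_zero]
      · simp only [hab]; field_simp
    have h5 : ∑ i, (∑ j, zeroed (fun i j => A i j ω) I J i j * y j) ^ 2 =
        n * ∑ i, (∑ j, zeroed (fun i j => b i j ω) I J i j * y j) ^ 2 := by
      rw [Finset.mul_sum]
      refine Finset.sum_congr rfl (fun i _ => ?_)
      rw [← hsn2, ← mul_pow]
      congr 1
      rw [Finset.mul_sum]
      refine Finset.sum_congr rfl (fun j _ => ?_)
      rw [h4]; ring
    rw [h5]
    have hY : 0 ≤ ∑ j, y j ^ 2 := Finset.sum_nonneg (fun _ _ => sq_nonneg _)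
    calc n * ∑ i, (∑ j, zeroed (fun i j => b i j ω) I J i j * y j) ^ 2
        ≤ n * ((2 * Λ) * ∑ j, y j ^ 2) := mul_le_mul_of_nonneg_left h3 hnR.le
      _ = (n * (2 * Λ)) * ∑ j, y j ^ 2 := by ring
      _ ≤ (300000 * K * Real.log (1 / ε) * √n) ^ 2 * ∑ j, y j ^ 2 := by
          refine mul_le_mul_of_nonneg_right ?_ hY
          rw [mul_pow, hsn2, hΛ]
          have : 0 ≤ (n:ℝ) * (K ^ 2 * Real.log (1 / ε) ^ 2) := by positivity
          nlinarith
  have hnull : P.real {ω | ¬ ∀ i j, b i j ω = A i j ω / √n} = 0 := by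
    have h6 : ∀ᵐ ω ∂P, ∀ i j, b i j ω = A i j ω / √n := by
      rw [MeasureTheory.ae_all_iff]
      intro i
      rw [MeasureTheory.ae_all_iff]
      exact hae i
    have h7 : P {ω | ¬ ∀ i j, b i j ω = A i j ω / √n} = 0 := h6
    rw [measureReal_def, h7]; simp
  calc P.real Gᶜ ≤ P.real _ := measureReal_mono hsub (measure_ne_top _ _)
    _ ≤ _ := measureReal_union_le _ _
    _ ≤ _ := add_le_add (measureReal_union_le _ _) (le_refl _)
    _ ≤ 4 * Real.exp (-(ε * n)) := by rw [hnull]; linarith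

end Pool.Agent.W2helper1.NR
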