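import Pool.Agent.W2helper1.NR.Stm

/-!
# Independence of the columns
-/

open MeasureTheory ProbabilityTheory

namespace Pool.Agent.W2helper1.NR

universe u

variable {Ω : Type u} [MeasurableSpace Ω] {P : Measure Ω} {n : ℕ}
  {b : Fin n → Fin n → Ω → ℝ}

/-- Rows within one column: expectations of products. -/
theorem row_prod [IsProbabilityMeasure P] {a : Fin n → Ω → ℝ} (hm : ∀ i, Measurable (a i))
    (hind : iIndepFun a P) (h : Fin n → ℝ → ℝ) (hh : ∀ i, Measurable (h i)) :
    ∫ ω, ∏ i, h i (a i ω) ∂P = ∏ i, ∫ ω, h i (a i ω) ∂P :=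
  hind.integral_fun_prod_comp (fun i => (hm i).aemeasurable)
    (fun i => (hh i).aestronglyMeasurable)

theorem colInd (hind : iIndepFun (fun p : Fin n × Fin n => b p.1 p.2) P) (j : Fin n) :
    iIndepFun (fun i => b i j) P := by
  have h := hind.precomp (g := fun i : Fin n => (i, j)) (fun x y hxy => by
    simpa using congrArg Prod.fst hxy)
  exact h

/-- Product over columns in a finset. -/
theorem col_prod_aux [IsProbabilityMeasure P] (hm : ∀ i j, Measurable (b i j))
    (hind : iIndepFun (fun p : Fin n × Fin n => b p.1 p.2) P)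
    (g : Fin n → (Fin n → ℝ) → ℝ) (hg : ∀ j, Measurable (g j)) (T : Finset (Fin n)) :
    ∫ ω, ∏ j ∈ T, g j (fun i => b i j ω) ∂P = ∏ j ∈ T, ∫ ω, g j (fun i => b i j ω) ∂P := by
  classical
  induction T using Finset.induction_on with
  | empty => simp
  | insert j₀ T hj IH =>
    simp only [Finset.prod_insert hj]
    rw [← IH]
    -- independence of the column `j₀` and of the columns in `T`
    have hdisj : Disjoint ((Finset.univ : Finset (Fin n)) ×ˢ ({j₀} : Finset (Fin n)))
        ((Finset.univ : Finset (Fin n)) ×ˢ T) := by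
      rw [Finset.disjoint_left]
      rintro ⟨i, j⟩ h1 h2
      simp only [Finset.mem_product, Finset.mem_univ, Finset.mem_singleton, true_and] at h1 h2
      subst h1
      exact hj h2
    have hI := hind.indepFun_finset _ _ hdisj (fun p => hm p.1 p.2)
    let φ : (((Finset.univ : Finset (Fin n)) ×ˢ ({j₀} : Finset (Fin n)) :
        Finset (Fin n × Fin n)) → ℝ) → ℝ :=
      fun y => g j₀ (fun i => y ⟨(i, j₀), by simp⟩)
    let ψ : (((Finset.univ : Finset (Fin n)) ×ˢ T : Finset (Fin n × Fin n)) → ℝ) → ℝ :=
      fun y => ∏ j ∈ T.attach, g j.1 (fun i => y ⟨(i, j.1), by simp [j.2]⟩)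
    have hφ : Measurable φ := by
      refine (hg j₀).comp ?_
      exact measurable_pi_lambda _ (fun i => measurable_pi_apply _)
    have hψ : Measurable ψ := by
      refine Finset.measurable_fun_prod _ (fun j _ => (hg j.1).comp ?_)
      exact measurable_pi_lambda _ (fun i => measurable_pi_apply _)
    have hI2 := hI.comp hφ hψ
    have hcol : ∀ j, Measurable (fun ω => g j (fun i => b i j ω)) := fun j =>
      (hg j).comp (measurable_pi_lambda _ (fun i => hm i j))
    have e1 : (φ ∘ fun a (i : ((Finset.univ : Finset (Fin n)) ×ˢ ({j₀} : Finset (Fin n)) :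
        Finset (Fin n × Fin n))) => b i.1.1 i.1.2 a) = fun ω => g j₀ (fun i => b i j₀ ω) := by
      funext ω; rfl
    have e2 : (ψ ∘ fun a (i : ((Finset.univ : Finset (Fin n)) ×ˢ T :
        Finset (Fin n × Fin n))) => b i.1.1 i.1.2 a) =
        fun ω => ∏ j ∈ T, g j (fun i => b i j ω) := by
      funext ω
      simp only [ψ, Function.comp]
      rw [← Finset.prod_attach T (fun j => g j (fun i => b i j ω))]
    rw [e1, e2] at hI2
    exact hI2.integral_fun_mul_eq_mul_integral (hcol j₀).aestronglyMeasurable
      (Finset.measurable_fun_prod _ (fun j _ => hcol j)).aestronglyMeasurable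

/-- Expectations of products of functions of the columns. -/
theorem col_prod [IsProbabilityMeasure P] (hm : ∀ i j, Measurable (b i j))
    (hind : iIndepFun (fun p : Fin n × Fin n => b p.1 p.2) P)
    (g : Fin n → (Fin n → ℝ) → ℝ) (hg : ∀ j, Measurable (g j)) :
    ∫ ω, ∏ j, g j (fun i => b i j ω) ∂P = ∏ j, ∫ ω, g j (fun i => b i j ω) ∂P :=
  col_prod_aux hm hind g hg Finset.univ

end Pool.Agent.W2helper1.NR
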